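import Pool.Agent.H33.HC.TA
import Pool.Agent.H60.HH.KXT

/-!
# KXC: the factor `Gs` can be taken out (MP_347b49_nt, complex shifts)
-/

set_option autoImplicit false

open NumberField MeasureTheory
open scoped nonZeroDivisors ContDiff

namespace Pool.Agent.H17.HC

open Pool.Agent.H33.HC Pool.Agent.H33.HH Pool.Agent.H28.RC Pool.Agent.H37.CV Pool.Agent.H60.HH

theorem nr_re {s : ℂ} (hs : Nr s) : 7 / 16 ≤ s.re ∧ s.re ≤ 9 / 16 := by
  have h := abs_le.1 hs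
  constructor <;> linarith [h.1, h.2]

/-- uniform bounds for `Hs` -/
theorem Hs_bound (h : T_HSC) {H : ℝ → ℝ} (hH : IsH H) : ∃ C : ℝ, 0 ≤ C ∧ ∀ s : ℂ, Nr s →
    ∀ v : ℝ, 0 ≤ v → ‖Hs H s v‖ ≤ C ∧ v ^ (1 / 4 : ℝ) * ‖Hs H s v‖ ≤ C := by
  obtain ⟨h1, C, hC, hb⟩ := h H hH
  refine ⟨2 * C, by linarith, fun s hs v hv => ?_⟩
  rcases le_total v (1 / 2) with h2 | h2
  · rw [(h1 s).2.1 v h2, norm_zero, mul_zero]
    exact ⟨by linarith, by linarith⟩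
  · have hv0 : 0 < v := by linarith
    have hr := nr_re hs
    have h3 := (hb s hs v hv0).1
    have key : ∀ e : ℝ, -1 ≤ e → e ≤ 0 → v ^ e ≤ 2 := by
      intro e he1 he0
      calc v ^ e ≤ (1 / 2 : ℝ) ^ e := Real.rpow_le_rpow_of_nonpos (by norm_num) h2 he0
        _ ≤ (1 / 2 : ℝ) ^ (-1 : ℝ) :=
          Real.rpow_le_rpow_of_exponent_ge (by norm_num) (by norm_num) he1
        _ = 2 := by rw [Real.rpow_neg_one]; norm_num
    have k1 := key (-s.re) (by linarith) (by linarith)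
    have k2 := key (1 / 4 + -s.re) (by linarith) (by linarith)
    constructor
    · refine h3.trans ?_
      nlinarith
    · calc v ^ (1 / 4 : ℝ) * ‖Hs H s v‖ ≤ v ^ (1 / 4 : ℝ) * (C * v ^ (-s.re)) :=
            mul_le_mul_of_nonneg_left h3 (Real.rpow_nonneg hv _)
        _ = C * v ^ (1 / 4 + -s.re) := by
            rw [Real.rpow_add hv0]; ring
        _ ≤ 2 * C := by nlinarith

/-- uniform bounds for `Gs` -/
theorem Gs_bound (h : T_GSC) {G : ℝ → ℝ} (hG : IsG G) : ∃ C L : ℝ, 0 ≤ C ∧ 0 ≤ L ∧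
    ∀ s : ℂ, Nr s → (∀ v, ‖Gs G s v‖ ≤ C) ∧ ∀ a b, ‖Gs G s a - Gs G s b‖ ≤ L * |a - b| := by
  obtain ⟨h1, h2⟩ := h G hG
  obtain ⟨C, hC, hCb⟩ := h2 0
  obtain ⟨L, hL, hLb⟩ := h2 1
  refine ⟨C, L, hC, hL, fun s hs => ⟨fun v => ?_, fun a b => ?_⟩⟩
  · have := hCb s hs v
    rwa [iteratedDeriv_zero] at this
  · have hd : Differentiable ℝ (Gs G s) := (h1 s hs).1.differentiable (by simp)
    have := Convex.norm_image_sub_le_of_norm_deriv_le (f := Gs G s) (s := Set.univ) (x := b)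
      (y := a) (fun x _ => hd x)
      (fun x _ => by have := hLb s hs x; rwa [iteratedDeriv_one] at this) convex_univ
      (Set.mem_univ _) (Set.mem_univ _)
    simpa [Real.norm_eq_abs] using this

theorem pf_KXC (h1 : T_GSC) (h2 : T_HSC) (h3 : Pool.Agent.H33.HH.T_THB) : T_KXC := by
  intro K _ _ _ W G H hW hG hH
  obtain ⟨hR, -, hRb⟩ := h3 K W hW
  obtain ⟨C3, hC3, hb⟩ := hRb 3
  obtain ⟨CH, hCH0, hCH⟩ := Hs_bound h2 hH
  obtain ⟨CG, L, hCG0, hL0, hGL⟩ := Gs_bound h1 hG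
  have hRc : Continuous (Rr K W) := hR.continuous
  refine ⟨(CH * C3 * (2 * L * Real.sqrt 12 + (CG + 1))) * (Real.pi * c0), by
    have := c0_nonneg; positivity, ?_⟩
  intro s hs r x t hr hr1 hx ht htx
  have hCHs := hCH s hs
  obtain ⟨hCG, hL⟩ := hGL s hs
  obtain ⟨hGc, hG1, hG6, -⟩ := (h1 G hG).1 s hs
  obtain ⟨hHc, hH1, -⟩ := (h2 H hH).1 s
  have hc1 : Continuous fun g : ℂ => ‖g - 1‖ ^ 2 * x :=
    ((continuous_norm.comp (continuous_id.sub continuous_const)).pow 2).mul continuous_const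
  have hcR : Continuous fun g : ℂ => ((Rr K W (‖g - 1‖ ^ 2 * x) : ℝ) : ℂ) :=
    Complex.continuous_ofReal.comp (hRc.comp hc1)
  have hcH : Continuous fun g : ℂ => Hs H s (‖g‖ ^ 2) :=
    hHc.continuous.comp (continuous_norm.pow 2)
  have hcG : Continuous fun g : ℂ => Gs G s (‖g‖ ^ 2 * t) :=
    hGc.continuous.comp ((continuous_norm.pow 2).mul continuous_const)
  have hRho : ∀ g : ℂ, ‖((Rr K W (‖g - 1‖ ^ 2 * x) : ℝ) : ℂ)‖ ≤
      C3 * ((1 + ‖g - 1‖ ^ 2 * x) ^ 3)⁻¹ := by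
    intro g
    have h1 := (hb (‖g - 1‖ ^ 2 * x) (by positivity)).1
    rw [Complex.norm_real, Real.norm_eq_abs]
    rwa [div_eq_mul_inv] at h1
  have h32 : ∀ g : ℂ, ((1 + ‖g - 1‖ ^ 2 * x) ^ 3)⁻¹ ≤ ((1 + ‖g - 1‖ ^ 2 * x) ^ 2)⁻¹ := by
    intro g
    refine inv_anti₀ (by positivity) ?_
    have : (1 : ℝ) ≤ 1 + ‖g - 1‖ ^ 2 * x := by
      have : 0 ≤ ‖g - 1‖ ^ 2 * x := by positivity
      linarith
    exact pow_le_pow_right₀ this (by norm_num)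
  have hRho2 : ∀ g : ℂ, ‖((Rr K W (‖g - 1‖ ^ 2 * x) : ℝ) : ℂ)‖ ≤
      C3 * ((1 + ‖g - 1‖ ^ 2 * x) ^ 2)⁻¹ :=
    fun g => (hRho g).trans (mul_le_mul_of_nonneg_left (h32 g) hC3)
  have hH2 : ∀ g : ℂ, ‖Hs H s (‖g‖ ^ 2)‖ ≤ CH := fun g => (hCHs _ (by positivity)).1
  have i0 : Integrable (fun g : ℂ => Hs H s (‖g‖ ^ 2) *
      ((Rr K W (‖g - 1‖ ^ 2 * x) : ℝ) : ℂ)) := by
    refine ((integrable_rho hx).const_mul (CH * C3)).mono' (hcH.mul hcR).aestronglyMeasurable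
      (Filter.Eventually.of_forall fun g => ?_)
    rw [norm_mul]
    calc ‖Hs H s (‖g‖ ^ 2)‖ * ‖((Rr K W (‖g - 1‖ ^ 2 * x) : ℝ) : ℂ)‖
        ≤ CH * (C3 * ((1 + ‖g - 1‖ ^ 2 * x) ^ 2)⁻¹) :=
          mul_le_mul (hH2 g) (hRho2 g) (norm_nonneg _) hCH0
      _ = _ := by ring
  have i1 : Integrable (fun g : ℂ => Hs H s (‖g‖ ^ 2) * Gs G s (‖g‖ ^ 2 * t) *
      ((Rr K W (‖g - 1‖ ^ 2 * x) : ℝ) : ℂ)) := by
    refine ((integrable_rho hx).const_mul (CH * CG * C3)).mono'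
      ((hcH.mul hcG).mul hcR).aestronglyMeasurable (Filter.Eventually.of_forall fun g => ?_)
    rw [norm_mul, norm_mul]
    calc ‖Hs H s (‖g‖ ^ 2)‖ * ‖Gs G s (‖g‖ ^ 2 * t)‖ *
          ‖((Rr K W (‖g - 1‖ ^ 2 * x) : ℝ) : ℂ)‖
        ≤ CH * CG * (C3 * ((1 + ‖g - 1‖ ^ 2 * x) ^ 2)⁻¹) :=
          mul_le_mul (mul_le_mul (hH2 g) (hCG _) (norm_nonneg _) hCH0) (hRho2 g)
            (norm_nonneg _) (by positivity)
      _ = _ := by ring
  have e1 : Kc K W G H s x t - Gs G s t * K0c K W H s x =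
      ∫ g : ℂ, Hs H s (‖g‖ ^ 2) * (Gs G s (‖g‖ ^ 2 * t) - Gs G s t) *
        ((Rr K W (‖g - 1‖ ^ 2 * x) : ℝ) : ℂ) := by
    unfold Kc K0c
    rw [← integral_const_mul, ← integral_sub i1 (i0.const_mul _)]
    refine integral_congr_ae (Filter.Eventually.of_forall fun g => ?_)
    ring
  rw [e1]
  -- it suffices to have a pointwise bound
  have key : ∀ B : ℝ, 0 ≤ B → (∀ g : ℂ,
      ‖Hs H s (‖g‖ ^ 2) * (Gs G s (‖g‖ ^ 2 * t) - Gs G s t) *
        ((Rr K W (‖g - 1‖ ^ 2 * x) : ℝ) : ℂ)‖ ≤ B * ((1 + ‖g - 1‖ ^ 2 * x) ^ 2)⁻¹) →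
      B ≤ (CH * C3 * (2 * L * Real.sqrt 12 + (CG + 1))) * r ^ (1 / 4 : ℝ) →
      ‖∫ g : ℂ, Hs H s (‖g‖ ^ 2) * (Gs G s (‖g‖ ^ 2 * t) - Gs G s t) *
        ((Rr K W (‖g - 1‖ ^ 2 * x) : ℝ) : ℂ)‖ ≤
        (CH * C3 * (2 * L * Real.sqrt 12 + (CG + 1))) * (Real.pi * c0) *
          r ^ (1 / 4 : ℝ) / x := by
    intro B hB0 hB hBu
    have h1 := norm_integral_le_of_norm_le (μ := (volume : Measure ℂ))
      ((integrable_rho hx).const_mul B) (Filter.Eventually.of_forall fun g => hB g)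
    rw [integral_const_mul, int_rho hx] at h1
    refine h1.trans ?_
    have hc : 0 ≤ Real.pi * c0 / x := by
      have := c0_nonneg; positivity
    calc B * (Real.pi * c0 / x)
        ≤ ((CH * C3 * (2 * L * Real.sqrt 12 + (CG + 1))) * r ^ (1 / 4 : ℝ)) *
          (Real.pi * c0 / x) := mul_le_mul_of_nonneg_right hBu hc
      _ = _ := by ring
  have hK : 0 ≤ CH * C3 := mul_nonneg hCH0 hC3
  have hr4 : 0 ≤ r ^ (1 / 4 : ℝ) := Real.rpow_nonneg hr.le _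
  rcases le_or_gt 12 t with h6 | h6
  · refine key 0 le_rfl (fun g => ?_) (by positivity)
    rw [zero_mul]
    have hz : Hs H s (‖g‖ ^ 2) * (Gs G s (‖g‖ ^ 2 * t) - Gs G s t) = 0 := by
      rcases le_total (‖g‖ ^ 2) (1 / 2) with h1 | h1
      · rw [hH1 _ h1, zero_mul]
      · have h2 : 6 ≤ ‖g‖ ^ 2 * t := by nlinarith
        rw [hG6 _ h2, hG6 t (by linarith), sub_zero, mul_zero]
    rw [hz, zero_mul, norm_zero]
  rcases le_or_gt 1 x with hx1 | hx1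
  · refine key (CH * C3 * (2 * L * (t * (Real.sqrt x)⁻¹))) (by positivity) (fun g => ?_) ?_
    · rw [norm_mul, norm_mul]
      have h1 : ‖Gs G s (‖g‖ ^ 2 * t) - Gs G s t‖ ≤ L * (t * (‖g - 1‖ * (2 + ‖g - 1‖))) := by
        refine (hL _ _).trans (mul_le_mul_of_nonneg_left ?_ hL0)
        have : ‖g‖ ^ 2 * t - t = t * (‖g‖ ^ 2 - 1) := by ring
        rw [this, abs_mul, abs_of_pos ht]
        exact mul_le_mul_of_nonneg_left (sq_sub_one_le g) ht.le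
      have h2 : ‖g - 1‖ * (2 + ‖g - 1‖) ≤ 2 * (Real.sqrt x)⁻¹ * (1 + ‖g - 1‖ ^ 2 * x) :=
        poly_le hx1 (norm_nonneg _)
      have h3 : ‖Gs G s (‖g‖ ^ 2 * t) - Gs G s t‖ ≤
          L * (t * (2 * (Real.sqrt x)⁻¹ * (1 + ‖g - 1‖ ^ 2 * x))) :=
        h1.trans (mul_le_mul_of_nonneg_left (mul_le_mul_of_nonneg_left h2 ht.le) hL0)
      have h4 := mul_le_mul (hH2 g) h3 (norm_nonneg _) hCH0
      have h5 := mul_le_mul h4 (hRho g) (norm_nonneg _) (by positivity)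
      refine h5.trans (le_of_eq ?_)
      have hne : (1 + ‖g - 1‖ ^ 2 * x) ≠ 0 := by positivity
      field_simp
    · have h1 : t * (Real.sqrt x)⁻¹ ≤ Real.sqrt 12 * Real.sqrt r := by
        have hs : 0 < Real.sqrt x := Real.sqrt_pos.2 hx
        rw [← div_eq_mul_inv, div_le_iff₀ hs, ← Real.sqrt_mul (by norm_num), ←
          Real.sqrt_mul (by positivity)]
        refine Real.le_sqrt_of_sq_le ?_
        nlinarith
      have h1' : Real.sqrt r ≤ r ^ (1 / 4 : ℝ) := by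
        rw [Real.sqrt_eq_rpow]
        exact Real.rpow_le_rpow_of_exponent_ge hr hr1 (by norm_num)
      have h2 : 2 * L * (t * (Real.sqrt x)⁻¹) ≤ 2 * L * (Real.sqrt 12 * r ^ (1 / 4 : ℝ)) :=
        mul_le_mul_of_nonneg_left (h1.trans (mul_le_mul_of_nonneg_left h1'
          (Real.sqrt_nonneg _))) (by positivity)
      have h3 : 0 ≤ (CG + 1) * r ^ (1 / 4 : ℝ) := by positivity
      calc CH * C3 * (2 * L * (t * (Real.sqrt x)⁻¹))
          ≤ CH * C3 * (2 * L * (Real.sqrt 12 * r ^ (1 / 4 : ℝ))) :=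
            mul_le_mul_of_nonneg_left h2 hK
        _ ≤ CH * C3 * (2 * L * (Real.sqrt 12 * r ^ (1 / 4 : ℝ)) +
            (CG + 1) * r ^ (1 / 4 : ℝ)) :=
            mul_le_mul_of_nonneg_left (by linarith) hK
        _ = _ := by ring
  · have ht1 : t ≤ 1 := by nlinarith
    have ht4 : 0 ≤ t ^ (1 / 4 : ℝ) := Real.rpow_nonneg ht.le _
    refine key (CH * C3 * ((CG + 1) * t ^ (1 / 4 : ℝ))) (by positivity) (fun g => ?_) ?_
    · have h1 : ‖Hs H s (‖g‖ ^ 2) * (Gs G s (‖g‖ ^ 2 * t) - Gs G s t)‖ ≤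
          CH * ((CG + 1) * t ^ (1 / 4 : ℝ)) := by
        rcases le_or_gt (‖g‖ ^ 2 * t) 1 with h2 | h2
        · rw [hG1 _ h2, hG1 t ht1, sub_self, mul_zero, norm_zero]
          positivity
        · rw [norm_mul]
          have h3 : ‖Gs G s (‖g‖ ^ 2 * t) - Gs G s t‖ ≤ CG + 1 := by
            have a1 := hCG (‖g‖ ^ 2 * t)
            have a2 : ‖Gs G s t‖ = 1 := by
              rw [hG1 t ht1, norm_one]
            have a3 := norm_sub_le (Gs G s (‖g‖ ^ 2 * t)) (Gs G s t)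
            linarith
          have h4 : 1 ≤ (‖g‖ ^ 2) ^ (1 / 4 : ℝ) * t ^ (1 / 4 : ℝ) := by
            rw [← Real.mul_rpow (by positivity) ht.le]
            exact Real.one_le_rpow h2.le (by norm_num)
          have h5 := (hCHs (‖g‖ ^ 2) (by positivity)).2
          have h6 : ‖Hs H s (‖g‖ ^ 2)‖ ≤ CH * t ^ (1 / 4 : ℝ) := by
            calc ‖Hs H s (‖g‖ ^ 2)‖ = 1 * ‖Hs H s (‖g‖ ^ 2)‖ := (one_mul _).symm
              _ ≤ ((‖g‖ ^ 2) ^ (1 / 4 : ℝ) * t ^ (1 / 4 : ℝ)) * ‖Hs H s (‖g‖ ^ 2)‖ :=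
                mul_le_mul_of_nonneg_right h4 (norm_nonneg _)
              _ = ((‖g‖ ^ 2) ^ (1 / 4 : ℝ) * ‖Hs H s (‖g‖ ^ 2)‖) * t ^ (1 / 4 : ℝ) := by ring
              _ ≤ CH * t ^ (1 / 4 : ℝ) := mul_le_mul_of_nonneg_right h5 ht4
          calc ‖Hs H s (‖g‖ ^ 2)‖ * ‖Gs G s (‖g‖ ^ 2 * t) - Gs G s t‖
              ≤ (CH * t ^ (1 / 4 : ℝ)) * (CG + 1) :=
                mul_le_mul h6 h3 (norm_nonneg _) (by positivity)
            _ = _ := by ring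
      rw [norm_mul]
      refine (mul_le_mul h1 (hRho2 g) (norm_nonneg _) (by positivity)).trans (le_of_eq ?_)
      ring
    · have h1 : t ^ (1 / 4 : ℝ) ≤ r ^ (1 / 4 : ℝ) :=
        Real.rpow_le_rpow ht.le (by nlinarith) (by norm_num)
      have h2 : (CG + 1) * t ^ (1 / 4 : ℝ) ≤ (CG + 1) * r ^ (1 / 4 : ℝ) :=
        mul_le_mul_of_nonneg_left h1 (by linarith)
      have h3 : 0 ≤ 2 * L * Real.sqrt 12 * r ^ (1 / 4 : ℝ) := by positivity
      calc CH * C3 * ((CG + 1) * t ^ (1 / 4 : ℝ))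
          ≤ CH * C3 * (2 * L * Real.sqrt 12 * r ^ (1 / 4 : ℝ) +
            (CG + 1) * r ^ (1 / 4 : ℝ)) :=
            mul_le_mul_of_nonneg_left (by linarith) hK
        _ = _ := by ring

end Pool.Agent.H17.HC
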