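import Pool.Agent.H17.HC.KXC
import Pool.Agent.H4.HH.PSB

/-!
# PSC: the transition function (MP_347b49_nt, complex shifts)
-/

set_option autoImplicit false

open NumberField MeasureTheory Filter Topology
open scoped nonZeroDivisors ContDiff

namespace Pool.Agent.H17.HC

open Pool.Agent.H33.HC Pool.Agent.H33.HH Pool.Agent.H28.RC Pool.Agent.H37.CV Pool.Agent.H4.HH

/-- `|z|^(-1/2) (1+|z|^2)^(-3)` -/
noncomputable def psc3 (z : ℂ) : ℝ := (Real.sqrt ‖z‖)⁻¹ * (1 / (1 + ‖z‖ ^ 2) ^ 3)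

lemma psc3_int : Integrable psc3 := by
  refine psb_radial (f := fun y => (Real.sqrt y)⁻¹ * (1 / (1 + y ^ 2) ^ 3)) ?_
  have h : Integrable (fun y : ℝ => (1 + y ^ 2)⁻¹) := integrable_inv_one_add_sq
  have h2 : IntegrableOn (fun y : ℝ => Real.sqrt y * (1 / (1 + y ^ 2) ^ 3)) (Set.Ioi 0) := by
    refine (h.integrableOn).mono' ?_ ?_
    · refine Continuous.aestronglyMeasurable ?_
      exact Real.continuous_sqrt.mul (continuous_const.div (by fun_prop)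
        (fun y => by positivity))
    · refine Filter.Eventually.of_forall fun y => ?_
      have hp : 0 < 1 + y ^ 2 := by positivity
      have hs : Real.sqrt y ≤ (1 + y ^ 2) ^ 2 := by
        refine Real.sqrt_le_iff.2 ⟨by positivity, ?_⟩
        have h1 : y ≤ 1 + y ^ 2 := by nlinarith [sq_nonneg (y - 1)]
        have h2 : 1 + y ^ 2 ≤ ((1 + y ^ 2) ^ 2) ^ 2 := by
          rw [← pow_mul]
          exact le_self_pow₀ (by nlinarith [sq_nonneg y]) (by norm_num)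
        linarith
      rw [Real.norm_of_nonneg (by positivity)]
      calc Real.sqrt y * (1 / (1 + y ^ 2) ^ 3) ≤ (1 + y ^ 2) ^ 2 * (1 / (1 + y ^ 2) ^ 3) := by
            gcongr
        _ = (1 + y ^ 2)⁻¹ := by field_simp
  refine h2.congr_fun (fun y hy => ?_) measurableSet_Ioi
  have hy0 : (0 : ℝ) < y := hy
  have hs : Real.sqrt y ≠ 0 := (Real.sqrt_pos.2 hy0).ne'
  have e : y = Real.sqrt y * Real.sqrt y := (Real.mul_self_sqrt hy0.le).symm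
  show Real.sqrt y * (1 / (1 + y ^ 2) ^ 3) = y * ((Real.sqrt y)⁻¹ * (1 / (1 + y ^ 2) ^ 3))
  rw [← mul_assoc]
  congr 1
  rw [eq_mul_inv_iff_mul_eq₀ hs]
  exact e.symm

lemma psc3_scale {q : ℝ} (hq : 0 < q) (z : ℂ) :
    (Real.sqrt ‖z‖)⁻¹ * psbk ((q ^ 2) ^ 2) z = q * psc3 ((q ^ 2) • z) := by
  unfold psbk psc3
  have hq2 : 0 < q ^ 2 := by positivity
  rw [norm_smul, Real.norm_of_nonneg hq2.le, Real.sqrt_mul hq2.le, Real.sqrt_sq hq.le, mul_inv]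
  have e : 1 + (q ^ 2 * ‖z‖) ^ 2 = 1 + ‖z‖ ^ 2 * (q ^ 2) ^ 2 := by ring
  rw [e]
  have : q ≠ 0 := hq.ne'
  rw [← mul_assoc, ← mul_assoc, mul_inv_cancel₀ this, one_mul]

lemma psc3_sint {q : ℝ} (hq : 0 < q) :
    Integrable (fun z : ℂ => (Real.sqrt ‖z‖)⁻¹ * psbk ((q ^ 2) ^ 2) z) := by
  simp_rw [psc3_scale hq]
  exact (psc3_int.comp_smul (pow_pos hq 2).ne').const_mul q

lemma psc3_val {q : ℝ} (hq : 0 < q) :
    ∫ z : ℂ, (Real.sqrt ‖z‖)⁻¹ * psbk ((q ^ 2) ^ 2) z = (q ^ 3)⁻¹ * ∫ z, psc3 z := by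
  simp_rw [psc3_scale hq]
  rw [integral_const_mul, psb_smul (pow_pos hq 2), ← mul_assoc]
  congr 1
  field_simp

/-- the properties of the cutoff -/
structure Cut (E : ℂ → ℂ) (M N : ℝ) : Prop where
  con : Continuous E
  m0 : 0 ≤ M
  n0 : 0 ≤ N
  b1 : ∀ g, ‖E g‖ ≤ M
  b2 : ∀ g, ‖E g‖ * Real.sqrt ‖g - 1‖ ≤ M
  b3 : ∀ g, ‖E g - 1 / 2‖ ≤ N * ‖g - 1‖

/-- the cutoff `Hs` has these properties, uniformly -/
lemma psc_H (h : T_HSC) {H : ℝ → ℝ} (hH : IsH H) : ∃ M : ℝ, 0 ≤ M ∧ ∀ s : ℂ, Nr s →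
    Cut (fun g => Hs H s (‖g‖ ^ 2)) M (M * (1 + |s.im|)) := by
  obtain ⟨CH, hCH0, hCH⟩ := Hs_bound h hH
  obtain ⟨h1, C, hC, hb⟩ := h H hH
  refine ⟨4 * CH + 12 * C + 2, by positivity, fun s hs => ?_⟩
  obtain ⟨hHc, -, -, hH1, -⟩ := h1 s
  have hCHs := hCH s hs
  have hr := nr_re hs
  have him : 0 ≤ |s.im| := abs_nonneg _
  refine ⟨hHc.continuous.comp (continuous_norm.pow 2), by positivity, by positivity,
    fun g => ?_, fun g => ?_, fun g => ?_⟩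
  · have := (hCHs (‖g‖ ^ 2) (by positivity)).1
    linarith
  · have a1 := (hCHs (‖g‖ ^ 2) (by positivity)).1
    have a2 := (hCHs (‖g‖ ^ 2) (by positivity)).2
    have e : (‖g‖ ^ 2) ^ (1 / 4 : ℝ) = Real.sqrt ‖g‖ := by
      rw [Real.sqrt_eq_rpow, ← Real.rpow_natCast, ← Real.rpow_mul (norm_nonneg g)]
      norm_num
    rw [e] at a2
    have a3 : ‖g - 1‖ ≤ ‖g‖ + 1 := by
      have := norm_sub_le g 1
      simpa using this
    have a4 : Real.sqrt ‖g - 1‖ ≤ Real.sqrt ‖g‖ + 1 := by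
      refine Real.sqrt_le_iff.2 ⟨by positivity, ?_⟩
      have := Real.mul_self_sqrt (norm_nonneg g)
      nlinarith [Real.sqrt_nonneg ‖g‖]
    calc ‖Hs H s (‖g‖ ^ 2)‖ * Real.sqrt ‖g - 1‖
        ≤ ‖Hs H s (‖g‖ ^ 2)‖ * (Real.sqrt ‖g‖ + 1) := by gcongr
      _ = Real.sqrt ‖g‖ * ‖Hs H s (‖g‖ ^ 2)‖ + ‖Hs H s (‖g‖ ^ 2)‖ := by ring
      _ ≤ CH + CH := add_le_add a2 a1
      _ ≤ _ := by linarith
  · rcases le_or_gt ‖g - 1‖ (1 / 4) with h4 | h4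
    · have a1 : |‖g‖ - 1| ≤ ‖g - 1‖ := by
        have := abs_norm_sub_norm_le g 1
        simpa using this
      have a1' := abs_le.1 (a1.trans h4)
      have a3 : |‖g‖ ^ 2 - 1| ≤ 3 * ‖g - 1‖ := by
        have := Pool.Agent.H60.HH.sq_sub_one_le g
        nlinarith [norm_nonneg (g - 1)]
      have a5 : ‖Hs H s (‖g‖ ^ 2) - Hs H s 1‖ ≤ (4 * C * (1 + |s.im|)) * ‖‖g‖ ^ 2 - 1‖ := by
        refine Convex.norm_image_sub_le_of_norm_deriv_le (s := Set.Icc (1 / 2 : ℝ) 2)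
          (fun x _ => (hHc.differentiable (by simp)).differentiableAt) (fun x hx => ?_)
          (convex_Icc _ _) (by norm_num) ⟨by nlinarith, by nlinarith⟩
        have hx0 : 0 < x := by linarith [hx.1]
        refine (hb s hs x hx0).2.trans ?_
        have : x ^ (-s.re - 1) ≤ 4 := by
          calc x ^ (-s.re - 1) ≤ (1 / 2 : ℝ) ^ (-s.re - 1) :=
                Real.rpow_le_rpow_of_nonpos (by norm_num) hx.1 (by linarith)
            _ ≤ (1 / 2 : ℝ) ^ (-2 : ℝ) :=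
                Real.rpow_le_rpow_of_exponent_ge (by norm_num) (by norm_num) (by linarith)
            _ = 4 := by
                have : (-2 : ℝ) = -((2 : ℕ) : ℝ) := by norm_num
                rw [this, Real.rpow_neg (by norm_num), Real.rpow_natCast]
                norm_num
        calc C * (1 + |s.im|) * x ^ (-s.re - 1) ≤ C * (1 + |s.im|) * 4 := by gcongr
          _ = _ := by ring
      rw [hH1, Real.norm_eq_abs] at a5
      calc ‖Hs H s (‖g‖ ^ 2) - 1 / 2‖ ≤ (4 * C * (1 + |s.im|)) * |‖g‖ ^ 2 - 1| := a5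
        _ ≤ (4 * C * (1 + |s.im|)) * (3 * ‖g - 1‖) := by gcongr
        _ = (12 * C) * (1 + |s.im|) * ‖g - 1‖ := by ring
        _ ≤ _ := by gcongr; linarith
    · have a1 := norm_sub_le (Hs H s (‖g‖ ^ 2)) (1 / 2)
      have a2 := (hCHs (‖g‖ ^ 2) (by positivity)).1
      have a3 : ‖(1 / 2 : ℂ)‖ = 1 / 2 := by norm_num
      rw [a3] at a1
      have a4 : CH + 1 / 2 ≤ (4 * CH + 2) * ‖g - 1‖ := by nlinarith
      calc ‖Hs H s (‖g‖ ^ 2) - 1 / 2‖ ≤ (4 * CH + 2) * ‖g - 1‖ := by linarith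
        _ ≤ (4 * CH + 12 * C + 2) * 1 * ‖g - 1‖ := by gcongr ?_ * _; linarith
        _ ≤ (4 * CH + 12 * C + 2) * (1 + |s.im|) * ‖g - 1‖ := by gcongr; linarith

/-- the integral with the cutoff -/
noncomputable def Ic (E : ℂ → ℂ) (ρ : ℝ → ℝ) (x : ℝ) : ℂ :=
  ∫ g : ℂ, E g * ((ρ (‖g - 1‖ ^ 2 * x) : ℝ) : ℂ)

section Ic

variable {E : ℂ → ℂ} {ρ : ℝ → ℝ} {C M N : ℝ}

lemma psc_rho (hb : ∀ y, 0 ≤ y → |ρ y| ≤ C / (1 + y) ^ 3) {x : ℝ} (hx : 0 < x) (g : ℂ) :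
    ‖((ρ (‖g - 1‖ ^ 2 * x) : ℝ) : ℂ)‖ ≤ C * psbk x (g - 1) := by
  rw [Complex.norm_real, Real.norm_eq_abs]
  exact psb_rho hb hx g

lemma psc_int_E (hE : Cut E M N) (hρ : Continuous ρ)
    (hb : ∀ y, 0 ≤ y → |ρ y| ≤ C / (1 + y) ^ 3) {x : ℝ} (hx : 0 < x) :
    Integrable (fun g : ℂ => E g * ((ρ (‖g - 1‖ ^ 2 * x) : ℝ) : ℂ)) := by
  refine ((psb_int_rho hρ hb hx).ofReal).bdd_mul (c := M) hE.con.aestronglyMeasurable ?_
  exact Filter.Eventually.of_forall fun g => hE.b1 g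

lemma psc_Ic (hE : Cut E M N) (hρ : Continuous ρ)
    (hb : ∀ y, 0 ≤ y → |ρ y| ≤ C / (1 + y) ^ 3) {q : ℝ} (hq : 0 < q) :
    ‖Ic E ρ ((q ^ 2) ^ 2)‖ ≤ M * C * (∫ z, psc3 z) * (q ^ 3)⁻¹ ∧
    ‖Ic E ρ ((q ^ 2) ^ 2) -
      ((1 / 2 * (Real.pi / (q ^ 2) ^ 2 * ∫ u in Set.Ioi (0 : ℝ), ρ u) : ℝ) : ℂ)‖ ≤
        N * C * (∫ z, psb2 z) * ((q ^ 2) ^ 3)⁻¹ := by
  have hC : 0 ≤ C := by
    have := (abs_nonneg _).trans (hb 0 le_rfl)
    simpa using this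
  have hM := hE.m0
  have hN := hE.n0
  have hs : 0 < q ^ 2 := by positivity
  have hs2 : 0 < (q ^ 2) ^ 2 := by positivity
  constructor
  · have hae : ∀ᵐ g : ℂ, ‖E g * ((ρ (‖g - 1‖ ^ 2 * (q ^ 2) ^ 2) : ℝ) : ℂ)‖ ≤
        M * C * ((Real.sqrt ‖g - 1‖)⁻¹ * psbk ((q ^ 2) ^ 2) (g - 1)) := by
      have h0 : ∀ᵐ z : ℂ, z ≠ 1 := by
        have : (volume : Measure ℂ) {1} = 0 := measure_singleton 1
        exact compl_mem_ae_iff.2 this
      filter_upwards [h0] with g hg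
      have hg' : 0 < Real.sqrt ‖g - 1‖ := Real.sqrt_pos.2 (norm_pos_iff.2 (sub_ne_zero.2 hg))
      have a1 : ‖E g‖ ≤ M * (Real.sqrt ‖g - 1‖)⁻¹ := by
        rw [← div_eq_mul_inv, le_div_iff₀ hg']
        exact hE.b2 g
      rw [norm_mul]
      calc ‖E g‖ * ‖((ρ (‖g - 1‖ ^ 2 * (q ^ 2) ^ 2) : ℝ) : ℂ)‖ ≤
          (M * (Real.sqrt ‖g - 1‖)⁻¹) * (C * psbk ((q ^ 2) ^ 2) (g - 1)) :=
            mul_le_mul a1 (psc_rho hb hs2 g) (norm_nonneg _) (by positivity)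
        _ = _ := by ring
    have hint := ((psc3_sint hq).comp_sub_right 1).const_mul (M * C)
    have h := norm_integral_le_of_norm_le hint hae
    rw [integral_const_mul, integral_sub_right_eq_self
      (fun g : ℂ => (Real.sqrt ‖g‖)⁻¹ * psbk ((q ^ 2) ^ 2) g) 1, psc3_val hq] at h
    refine h.trans (le_of_eq ?_)
    ring
  · have e1 : Real.pi / (q ^ 2) ^ 2 * ∫ u in Set.Ioi (0 : ℝ), ρ u =
        ∫ g : ℂ, ρ (‖g - 1‖ ^ 2 * (q ^ 2) ^ 2) := by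
      rw [← psb_polar ρ hs2,
        integral_sub_right_eq_self (fun g : ℂ => ρ (‖g‖ ^ 2 * (q ^ 2) ^ 2)) 1]
    have e2 : Ic E ρ ((q ^ 2) ^ 2) -
        ((1 / 2 * (Real.pi / (q ^ 2) ^ 2 * ∫ u in Set.Ioi (0 : ℝ), ρ u) : ℝ) : ℂ) =
        ∫ g : ℂ, (E g - 1 / 2) * ((ρ (‖g - 1‖ ^ 2 * (q ^ 2) ^ 2) : ℝ) : ℂ) := by
      rw [e1]
      unfold Ic
      have e3 : ((1 / 2 * ∫ g : ℂ, ρ (‖g - 1‖ ^ 2 * (q ^ 2) ^ 2) : ℝ) : ℂ) =
          ∫ g : ℂ, (1 / 2 : ℂ) * ((ρ (‖g - 1‖ ^ 2 * (q ^ 2) ^ 2) : ℝ) : ℂ) := by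
        rw [integral_const_mul, Complex.ofReal_mul]
        congr 1
        · norm_num
        · exact (integral_ofReal).symm
      have i3 : Integrable (fun g : ℂ =>
          (1 / 2 : ℂ) * ((ρ (‖g - 1‖ ^ 2 * (q ^ 2) ^ 2) : ℝ) : ℂ)) :=
        ((psb_int_rho hρ hb hs2).ofReal (𝕜 := ℂ)).const_mul (1 / 2 : ℂ)
      rw [e3, ← integral_sub (psc_int_E hE hρ hb hs2) i3]
      refine integral_congr_ae (Filter.Eventually.of_forall fun g => ?_)
      show E g * ((ρ (‖g - 1‖ ^ 2 * (q ^ 2) ^ 2) : ℝ) : ℂ) -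
        (1 / 2 : ℂ) * ((ρ (‖g - 1‖ ^ 2 * (q ^ 2) ^ 2) : ℝ) : ℂ) = _
      ring
    rw [e2]
    have hae : ∀ᵐ g : ℂ, ‖(E g - 1 / 2) * ((ρ (‖g - 1‖ ^ 2 * (q ^ 2) ^ 2) : ℝ) : ℂ)‖ ≤
        N * C * (‖g - 1‖ * psbk ((q ^ 2) ^ 2) (g - 1)) := by
      refine Filter.Eventually.of_forall fun g => ?_
      rw [norm_mul]
      calc ‖E g - 1 / 2‖ * ‖((ρ (‖g - 1‖ ^ 2 * (q ^ 2) ^ 2) : ℝ) : ℂ)‖ ≤
          (N * ‖g - 1‖) * (C * psbk ((q ^ 2) ^ 2) (g - 1)) :=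
            mul_le_mul (hE.b3 g) (psc_rho hb hs2 g) (norm_nonneg _) (by positivity)
        _ = _ := by ring
    have hint := ((psb2_sint hs).comp_sub_right 1).const_mul (N * C)
    have h := norm_integral_le_of_norm_le hint hae
    rw [integral_const_mul, integral_sub_right_eq_self
      (fun g : ℂ => ‖g‖ * psbk ((q ^ 2) ^ 2) g) 1, psb2_val hs] at h
    refine h.trans (le_of_eq ?_)
    ring

/-- domination on a neighbourhood -/
lemma psc_dom (hE : Cut E M N) (hb : ∀ y, 0 ≤ y → |ρ y| ≤ C / (1 + y) ^ 3) {x₀ : ℝ}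
    (hx₀ : 0 < x₀) : ∀ g : ℂ, ∀ x, x₀ / 2 < x →
      ‖E g * ((ρ (‖g - 1‖ ^ 2 * x) : ℝ) : ℂ)‖ ≤ M * C * psbk (x₀ / 2) (g - 1) := by
  have hC : 0 ≤ C := by
    have := (abs_nonneg _).trans (hb 0 le_rfl)
    simpa using this
  have hM := hE.m0
  intro g x hx
  have hxp : 0 < x := by linarith
  have a1 : psbk x (g - 1) ≤ psbk (x₀ / 2) (g - 1) := by
    unfold psbk
    gcongr
  rw [norm_mul]
  calc ‖E g‖ * ‖((ρ (‖g - 1‖ ^ 2 * x) : ℝ) : ℂ)‖ ≤ M * (C * psbk x (g - 1)) :=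
        mul_le_mul (hE.b1 g) (psc_rho hb hxp g) (norm_nonneg _) hM
    _ ≤ M * (C * psbk (x₀ / 2) (g - 1)) := by gcongr
    _ = _ := by ring

lemma psc_cont (hE : Cut E M N) (hρ : Continuous ρ)
    (hb : ∀ y, 0 ≤ y → |ρ y| ≤ C / (1 + y) ^ 3)
    {x₀ : ℝ} (hx₀ : 0 < x₀) : ContinuousAt (Ic E ρ) x₀ := by
  have hd := psc_dom hE hb hx₀
  unfold Ic
  refine continuousAt_of_dominated (bound := fun g => M * C * psbk (x₀ / 2) (g - 1)) ?_ ?_ ?_ ?_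
  · exact Filter.Eventually.of_forall fun x =>
      (hE.con.mul (Complex.continuous_ofReal.comp
        (hρ.comp (by fun_prop : Continuous fun g : ℂ => ‖g - 1‖ ^ 2 * x)))).aestronglyMeasurable
  · filter_upwards [lt_mem_nhds (show x₀ / 2 < x₀ by linarith)] with x hx
    exact Filter.Eventually.of_forall fun g => hd g x hx
  · exact ((psbk_int (half_pos hx₀)).comp_sub_right 1).const_mul (M * C)
  · exact Filter.Eventually.of_forall fun g =>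
      (continuous_const.mul (Complex.continuous_ofReal.comp
        (hρ.comp (by fun_prop : Continuous fun x : ℝ => ‖g - 1‖ ^ 2 * x)))).continuousAt

lemma psc_deriv (hE : Cut E M N) (hρ : ContDiff ℝ 1 ρ)
    (hb : ∀ y, 0 ≤ y → |ρ y| ≤ C / (1 + y) ^ 3)
    (hb' : ∀ y, 0 ≤ y → |y * deriv ρ y| ≤ C / (1 + y) ^ 3) {x₀ : ℝ} (hx₀ : 0 < x₀) :
    HasDerivAt (Ic E ρ) (((x₀⁻¹ : ℝ) : ℂ) * Ic E (fun y => y * deriv ρ y) x₀) x₀ := by
  have hdc : Continuous (deriv ρ) := hρ.continuous_deriv (by simp)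
  have hρ2 : Continuous (fun y => y * deriv ρ y) := continuous_id.mul hdc
  have hM := hE.m0
  have hd := psc_dom hE hb' hx₀
  have key := hasDerivAt_integral_of_dominated_loc_of_deriv_le (μ := (volume : Measure ℂ))
    (F := fun x g => E g * ((ρ (‖g - 1‖ ^ 2 * x) : ℝ) : ℂ))
    (F' := fun x g => ((x⁻¹ : ℝ) : ℂ) *
      (E g * ((‖g - 1‖ ^ 2 * x * deriv ρ (‖g - 1‖ ^ 2 * x) : ℝ) : ℂ)))
    (x₀ := x₀) (s := Set.Ioi (x₀ / 2))
    (bound := fun g => (x₀ / 2)⁻¹ * (M * C * psbk (x₀ / 2) (g - 1)))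
    (Ioi_mem_nhds (by linarith)) ?_ ?_ ?_ ?_ ?_ ?_
  · have h2 := key.2
    rw [integral_const_mul] at h2
    exact h2
  · exact Filter.Eventually.of_forall fun x =>
      (hE.con.mul (Complex.continuous_ofReal.comp (hρ.continuous.comp
        (by fun_prop : Continuous fun g : ℂ => ‖g - 1‖ ^ 2 * x)))).aestronglyMeasurable
  · exact psc_int_E hE hρ.continuous hb hx₀
  · exact (continuous_const.mul (hE.con.mul (Complex.continuous_ofReal.comp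
        (hρ2.comp (by fun_prop : Continuous fun g : ℂ => ‖g - 1‖ ^ 2 * x₀))))).aestronglyMeasurable
  · refine Filter.Eventually.of_forall fun g x hx => ?_
    have hx' : x₀ / 2 < x := hx
    have hxp : 0 < x := by linarith
    rw [norm_mul, Complex.norm_real, Real.norm_of_nonneg (inv_nonneg.2 hxp.le)]
    exact mul_le_mul (inv_anti₀ (half_pos hx₀) hx'.le) (hd g x hx') (norm_nonneg _)
      (by positivity)
  · exact (((psbk_int (half_pos hx₀)).comp_sub_right 1).const_mul (M * C)).const_mul _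
  · refine Filter.Eventually.of_forall fun g x hx => ?_
    have hx' : x₀ / 2 < x := hx
    have hxp : 0 < x := by linarith
    have h1 : HasDerivAt ρ (deriv ρ (‖g - 1‖ ^ 2 * x)) (‖g - 1‖ ^ 2 * x) :=
      ((hρ.differentiable (by simp)) _).hasDerivAt
    have h2 : HasDerivAt (fun x : ℝ => ‖g - 1‖ ^ 2 * x) (‖g - 1‖ ^ 2) x := by
      simpa using (hasDerivAt_id x).const_mul (‖g - 1‖ ^ 2)
    have h3 := ((h1.comp x h2).ofReal_comp).const_mul (E g)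
    refine h3.congr_deriv ?_
    have hxc : (x : ℂ) ≠ 0 := by exact_mod_cast hxp.ne'
    push_cast
    field_simp

end Ic

theorem pf_PSC (h1 : T_HSC) (h2 : Pool.Agent.H33.HH.T_THB) (h3 : Pool.Agent.H33.HH.T_THI) :
    T_PSC := by
  intro K _ _ _ W H hW hW1 hH
  obtain ⟨hsm, -, hA⟩ := h2 K W hW
  obtain ⟨C, hC, hCb⟩ := hA 3
  obtain ⟨hint, hval⟩ := h3 K W hW
  obtain ⟨M, hM, hcut⟩ := psc_H h1 hH
  have hwu : 0 < wu K := (Pool.Agent.H46.HH.pf_NRM K).2.1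
  have hhc : 0 < hc K := by
    unfold hc
    exact_mod_cast (NumberField.classNumber_pos K)
  obtain ⟨κ, hκ⟩ : ∃ κ : ℝ, κ = 2 / Real.pi * (wu K / (hc K * W1 W)) := ⟨_, rfl⟩
  have hκ0 : 0 < κ := by rw [hκ]; positivity
  set ρ : ℝ → ℝ := Rr K W with hρ
  set ρ2 : ℝ → ℝ := fun y => y * deriv ρ y with hρ2
  have hb : ∀ y, 0 ≤ y → |ρ y| ≤ C / (1 + y) ^ 3 := fun y hy => (hCb y hy).1
  have hb2 : ∀ y, 0 ≤ y → |ρ2 y| ≤ C / (1 + y) ^ 3 := fun y hy => (hCb y hy).2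
  have hc2 : Continuous ρ2 := continuous_id.mul (hsm.continuous_deriv (by simp))
  have hpar : ∫ y in Set.Ioi (0 : ℝ), ρ2 y = - ∫ y in Set.Ioi (0 : ℝ), ρ y :=
    psb_parts hsm hb hb2
  obtain ⟨J₃, hJ₃⟩ : ∃ J : ℝ, J = ∫ z, psc3 z := ⟨_, rfl⟩
  obtain ⟨J₂, hJ₂⟩ : ∃ J : ℝ, J = ∫ z, psb2 z := ⟨_, rfl⟩
  have hJ3 : 0 ≤ J₃ := by
    rw [hJ₃]; exact integral_nonneg fun z => by unfold psc3; positivity
  have hJ2 : 0 ≤ J₂ := by
    rw [hJ₂]; exact integral_nonneg fun z => by unfold psb2; positivity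
  refine ⟨2 * κ * (M * C * J₃ + M * C * J₂), by positivity, fun s hs => ?_⟩
  have hE := hcut s hs
  set E : ℂ → ℂ := fun g => Hs H s (‖g‖ ^ 2) with hEdef
  have him : 1 ≤ 1 + |s.im| := by linarith [abs_nonneg s.im]
  have hps : ∀ x, psc K W H s x = 1 + (κ : ℂ) * ((x : ℂ) * Ic E ρ x) := by
    intro x
    have e : psc K W H s x =
        1 + ((2 * x / Real.pi * (wu K / (hc K * W1 W)) : ℝ) : ℂ) * Ic E ρ x := rfl
    rw [e, hκ]
    push_cast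
    ring
  refine ⟨fun x => (κ : ℂ) * (Ic E ρ x + Ic E ρ2 x), ?_, ?_, ?_, ?_⟩
  · intro t ht
    have hd := psc_deriv hE hsm hb hb2 ht
    have h3 := ((((hasDerivAt_id t).ofReal_comp).mul hd).const_mul (κ : ℂ)).const_add 1
    have e : psc K W H s = fun x : ℝ => 1 + (κ : ℂ) * ((x : ℂ) * Ic E ρ x) :=
      funext fun x => hps x
    rw [e]
    have ht' : (t : ℂ) ≠ 0 := by exact_mod_cast ht.ne'
    refine HasDerivAt.congr_deriv (f' := _) h3 ?_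
    simp only [id_eq, Complex.ofReal_one, one_mul, Complex.ofReal_inv]
    rw [← mul_assoc (t : ℂ), mul_inv_cancel₀ ht', one_mul]
  · intro x hx
    exact (continuousAt_const.mul ((psc_cont hE hsm.continuous hb hx).add
      (psc_cont hE hc2 hb2 hx))).continuousWithinAt
  · intro t ht ht1
    obtain ⟨q, hqp, hqt⟩ : ∃ q : ℝ, 0 < q ∧ t = (q ^ 2) ^ 2 :=
      ⟨Real.sqrt (Real.sqrt t), Real.sqrt_pos.2 (Real.sqrt_pos.2 ht), by
        rw [Real.sq_sqrt (Real.sqrt_nonneg t), Real.sq_sqrt ht.le]⟩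
    have hrp : (t / 1) ^ (1 / 4 : ℝ) = q := by
      rw [div_one, hqt, ← pow_mul, ← Real.rpow_natCast, ← Real.rpow_mul hqp.le]
      norm_num
    rw [hrp, hps]
    have a1 := (psc_Ic hE hsm.continuous hb hqp).1
    have a2 := (psc_Ic hE hc2 hb2 hqp).1
    rw [← hqt, ← hJ₃] at a1 a2
    have hB : 0 ≤ M * C * J₃ := by positivity
    have hB2 : 0 ≤ M * C * J₂ := by positivity
    constructor
    · have : 1 + (κ : ℂ) * ((t : ℂ) * Ic E ρ t) - 1 = (κ : ℂ) * ((t : ℂ) * Ic E ρ t) := by ring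
      rw [this, norm_mul, norm_mul, Complex.norm_of_nonneg hκ0.le, Complex.norm_of_nonneg ht.le]
      calc κ * (t * ‖Ic E ρ t‖) ≤ κ * (t * (M * C * J₃ * (q ^ 3)⁻¹)) := by gcongr
        _ = κ * (M * C * J₃) * q := by rw [hqt]; field_simp
        _ ≤ (2 * κ * (M * C * J₃ + M * C * J₂)) * 1 * q := by
            gcongr ?_ * _
            nlinarith
        _ ≤ 2 * κ * (M * C * J₃ + M * C * J₂) * (1 + |s.im|) * q := by gcongr
    · rw [norm_mul, Complex.norm_of_nonneg hκ0.le]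
      calc κ * ‖Ic E ρ t + Ic E ρ2 t‖ ≤
            κ * (M * C * J₃ * (q ^ 3)⁻¹ + M * C * J₃ * (q ^ 3)⁻¹) := by
            gcongr
            exact (norm_add_le _ _).trans (add_le_add a1 a2)
        _ = (2 * κ * (M * C * J₃)) / t * q := by rw [hqt]; field_simp; ring
        _ ≤ (2 * κ * (M * C * J₃ + M * C * J₂) * 1) / t * q := by
            gcongr ?_ / _ * _
            nlinarith
        _ ≤ 2 * κ * (M * C * J₃ + M * C * J₂) * (1 + |s.im|) / t * q := by gcongr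
  · intro t ht1
    have ht : 0 < t := by linarith
    obtain ⟨q, hqp, hqt⟩ : ∃ q : ℝ, 0 < q ∧ t = (q ^ 2) ^ 2 :=
      ⟨Real.sqrt (Real.sqrt t), Real.sqrt_pos.2 (Real.sqrt_pos.2 ht), by
        rw [Real.sq_sqrt (Real.sqrt_nonneg t), Real.sq_sqrt ht.le]⟩
    have hq1 : 1 ≤ q := by
      by_contra hlt
      push Not at hlt
      have : (q ^ 2) ^ 2 < 1 := by
        rw [← pow_mul]
        exact pow_lt_one₀ hqp.le hlt (by norm_num)
      linarith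
    have hrp : (t / 1) ^ (-(1 / 4) : ℝ) = q⁻¹ := by
      rw [div_one, hqt, ← pow_mul, ← Real.rpow_natCast, ← Real.rpow_mul hqp.le]
      have : (((2 * 2 : ℕ) : ℝ) * -(1 / 4)) = -1 := by norm_num
      rw [this, Real.rpow_neg_one]
    rw [hrp, hps]
    have a1 := (psc_Ic hE hsm.continuous hb hqp).2
    have a2 := (psc_Ic hE hc2 hb2 hqp).2
    rw [← hqt, ← hJ₂] at a1 a2
    rw [hpar] at a2
    rw [hval] at a1 a2
    set Y : ℝ := hc K / wu K * W1 W with hY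
    have hκN : κ * (1 / 2 * (Real.pi * Y)) = 1 := by
      rw [hκ, hY]
      have := Real.pi_pos
      field_simp
    have hB : 0 ≤ M * C * J₃ := by positivity
    have hB2 : 0 ≤ M * C * J₂ := by positivity
    have hinv : ((q ^ 2) ^ 3)⁻¹ ≤ q⁻¹ / t := by
      rw [hqt, inv_le_iff_one_le_mul₀ (by positivity)]
      have : q⁻¹ / (q ^ 2) ^ 2 * (q ^ 2) ^ 3 = q := by field_simp
      rw [this]
      exact hq1
    constructor
    · have e : 1 + (κ : ℂ) * ((t : ℂ) * Ic E ρ t) =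
          (κ : ℂ) * (t : ℂ) *
            (Ic E ρ t - ((1 / 2 * (Real.pi / t * -Y) : ℝ) : ℂ)) := by
        have : (κ : ℂ) * (t : ℂ) * ((1 / 2 * (Real.pi / t * -Y) : ℝ) : ℂ) = -1 := by
          have e1 : κ * t * (1 / 2 * (Real.pi / t * -Y)) = -1 := by
            have : κ * t * (1 / 2 * (Real.pi / t * -Y)) = - (κ * (1 / 2 * (Real.pi * Y))) := by
              field_simp
            rw [this, hκN]
          exact_mod_cast e1
        rw [mul_sub, this]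
        ring
      rw [e, norm_mul, norm_mul, Complex.norm_of_nonneg hκ0.le, Complex.norm_of_nonneg ht.le]
      calc κ * t * ‖Ic E ρ t - ((1 / 2 * (Real.pi / t * -Y) : ℝ) : ℂ)‖
          ≤ κ * t * (M * (1 + |s.im|) * C * J₂ * ((q ^ 2) ^ 3)⁻¹) := by gcongr
        _ ≤ κ * t * (M * (1 + |s.im|) * C * J₂ * (q⁻¹ / t)) := by gcongr
        _ = κ * (M * C * J₂) * (1 + |s.im|) * q⁻¹ := by field_simp
        _ ≤ 2 * κ * (M * C * J₃ + M * C * J₂) * (1 + |s.im|) * q⁻¹ := by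
            gcongr ?_ * _ * _
            nlinarith
    · have e : Ic E ρ t + Ic E ρ2 t =
          (Ic E ρ t - ((1 / 2 * (Real.pi / t * -Y) : ℝ) : ℂ)) +
          (Ic E ρ2 t - ((1 / 2 * (Real.pi / t * -(-Y)) : ℝ) : ℂ)) := by
        push_cast
        ring
      rw [norm_mul, Complex.norm_of_nonneg hκ0.le, e]
      calc κ * ‖(Ic E ρ t - ((1 / 2 * (Real.pi / t * -Y) : ℝ) : ℂ)) +
          (Ic E ρ2 t - ((1 / 2 * (Real.pi / t * -(-Y)) : ℝ) : ℂ))‖ ≤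
            κ * (M * (1 + |s.im|) * C * J₂ * ((q ^ 2) ^ 3)⁻¹ +
              M * (1 + |s.im|) * C * J₂ * ((q ^ 2) ^ 3)⁻¹) := by
            gcongr
            exact (norm_add_le _ _).trans (add_le_add a1 a2)
        _ ≤ κ * (M * (1 + |s.im|) * C * J₂ * (q⁻¹ / t) +
              M * (1 + |s.im|) * C * J₂ * (q⁻¹ / t)) := by gcongr
        _ = 2 * κ * (M * C * J₂) * (1 + |s.im|) / t * q⁻¹ := by field_simp; ring
        _ ≤ 2 * κ * (M * C * J₃ + M * C * J₂) * (1 + |s.im|) / t * q⁻¹ := by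
            gcongr ?_ * _ / _ * _
            nlinarith

end Pool.Agent.H17.HC
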